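import Pool.Agent.helper19.FE.Spec
import Pool.Agent.helper65.FP.BAD

/-!
# Project FE (MP_bf63dc_nt), row BAG
-/

set_option autoImplicit false

namespace Pool.Agent.FE

open Finset
open Pool.Agent.FR (mean)
open Pool.Agent.AT (Qk)
open Pool.Agent.DP (Fm PrE)
open Pool.Agent.FP (fa DataU)
open Pool.Agent.IT (Ad br)

open Classical in
theorem BAG : BAG_stmt := by
  intro ε a b c hG D hD
  unfold Pool.Agent.SK.Dens at hG
  push Not at hG
  obtain ⟨q, hq, hDq, h⟩ := hG D hD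
  refine ⟨q, hq, hDq, fun M₀ => ?_⟩
  obtain ⟨M, hM, y, hy, h1⟩ := h M₀
  refine ⟨M, hM, y, hy, ?_⟩
  rw [Pool.Agent.FP.BAD_sum]
  linarith

end Pool.Agent.FE
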